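import Pool.Agent.Work.MP_602313_nt.F.FStmts

/-!
Module F, item F5: the frozen statement S16353.
-/

open scoped MatrixGroups ModularForm UpperHalfPlane Polynomial ENNReal
open CongruenceSubgroup UpperHalfPlane MeasureTheory Filter

noncomputable section

namespace Gou

namespace F5

theorem heckeEigs_eq (N : ℕ) (h1 : FinDim N) (k : ℤ) (l : ℕ) :
    haveI := h1 k
    heckeEigs N k l = (heckeOp N k l).charpoly.roots := by
  unfold heckeEigs
  rw [dif_pos (h1 k)]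

theorem card_heckeEigs (N : ℕ) (h1 : FinDim N) (k : ℤ) (l : ℕ) :
    Multiset.card (heckeEigs N k l) = Module.finrank ℂ (SN N k) := by
  have := h1 k
  rw [heckeEigs_eq N h1, IsAlgClosed.card_roots_eq_natDegree, LinearMap.charpoly_natDegree]

theorem isHecke_heckeOp {p N : ℕ} [Fact p.Prime] (hp : ¬ p ∣ N) (h2 : HeckeExists N) (k : ℤ) :
    IsHecke N k p (heckeOp N k p) := by
  have hpp : p.Prime := Fact.out
  have hex := h2 k p hpp hp
  have e : heckeOp N k p = hex.choose := by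
    unfold heckeOp
    rw [dif_pos hex]
  rw [e]
  exact hex.choose_spec

theorem roots_eq_of_mult {V : Type*} [AddCommGroup V] [Module ℂ V] [Module.Finite ℂ V]
    (U : Module.End ℂ V) (Q : ℂ[X])
    (h : ∀ μ : ℂ, Q.rootMultiplicity μ = Module.finrank ℂ (Module.End.maxGenEigenspace U μ)) :
    Q.roots = (LinearMap.charpoly U).roots := by
  classical
  ext μ
  rw [Polynomial.count_roots, Polynomial.count_roots, h, LinearMap.finrank_maxGenEigenspace_eq]

theorem roots_transport {p : ℕ} [Fact p.Prime] (ι : ℂ ≃+* PadicAlgCl p) (q : ℚ[X]) :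
    (q.map (algebraMap ℚ (PadicAlgCl p))).roots = ((q.map (algebraMap ℚ ℂ)).roots).map ι := by
  have h1 : (q.map (algebraMap ℚ (PadicAlgCl p)))
      = (q.map (algebraMap ℚ ℂ)).map (ι : ℂ →+* PadicAlgCl p) := by
    rw [Polynomial.map_map]
    congr 1
    exact Subsingleton.elim _ _
  rw [h1, (IsAlgClosed.splits _).roots_map]
  rfl

theorem roots_quad {p : ℕ} [Fact p.Prime] (ι : ℂ ≃+* PadicAlgCl p) (a c : ℂ) :
    ((Polynomial.X ^ 2 - Polynomial.C a * Polynomial.X + Polynomial.C c : ℂ[X]).roots).map ι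
      = (Polynomial.X ^ 2 - Polynomial.C (ι a) * Polynomial.X
        + Polynomial.C (ι c) : (PadicAlgCl p)[X]).roots := by
  have h1 : (Polynomial.X ^ 2 - Polynomial.C (ι a) * Polynomial.X
        + Polynomial.C (ι c) : (PadicAlgCl p)[X])
      = (Polynomial.X ^ 2 - Polynomial.C a * Polynomial.X + Polynomial.C c : ℂ[X]).map
        (ι : ℂ →+* PadicAlgCl p) := by
    simp
  rw [h1, (IsAlgClosed.splits _).roots_map]
  rfl

theorem vAlg_new {p : ℕ} [Fact p.Prime] (h0 : E0NA) (ι : ℂ ≃+* PadicAlgCl p) (k : ℕ) (hk : 2 ≤ k)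
    (x : ℂ) (hx : x ^ 2 = (p : ℂ) ^ ((k : ℤ) - 2)) :
    -Real.logb p ‖ι x‖ = ((k : ℝ) - 2) / 2 := by
  have hp : p.Prime := Fact.out
  have hp0 : (0 : ℝ) < p := by exact_mod_cast hp.pos
  have hp1 : (1 : ℝ) < p := by exact_mod_cast hp.one_lt
  have hpn : ‖(p : PadicAlgCl p)‖ = (p : ℝ)⁻¹ := by
    have h1 := (h0 p ι).hp
    have h2 : avI ι (p : ℂ) = ‖ι (p : ℂ)‖ := rfl
    rw [h2, map_natCast] at h1
    exact h1
  have h1 : ‖ι x‖ ^ 2 = (p : ℝ) ^ (-((k : ℝ) - 2)) := by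
    rw [← norm_pow, ← map_pow, hx]
    obtain ⟨n, rfl⟩ : ∃ n, k = n + 2 := ⟨k - 2, by omega⟩
    have e : (((n + 2 : ℕ) : ℤ) - 2) = (n : ℤ) := by push_cast; ring
    have e2 : (((n + 2 : ℕ) : ℝ) - 2) = (n : ℝ) := by push_cast; ring
    rw [e, e2, zpow_natCast, map_pow, map_natCast, norm_pow, hpn, inv_pow,
      Real.rpow_neg hp0.le, Real.rpow_natCast]
  have h2 : Real.logb p (‖ι x‖ ^ 2) = -((k : ℝ) - 2) := by
    rw [h1, Real.logb_rpow hp0 hp1.ne']
  rw [Real.logb_pow] at h2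
  push_cast at h2
  linarith

/-- The value at a weight `k`. -/
theorem sum_eq (h1 : FAL) (h2 : FEig) (h7 : ERoots) (h0 : E0NA) {p N : ℕ} [Fact p.Prime]
    (hN : N ≠ 0) (hp : ¬ p ∣ N) (h9 : ∀ N, N ≠ 0 → FinDim N) (h10 : HeckeExists N) (k : ℕ)
    (hk : 2 ≤ k) (ι : ℂ ≃+* PadicAlgCl p) (hle : ∀ a ∈ heckeEigs N (k : ℤ) p, avI ι a ≤ 1)
    (U : SN (N * p) (k : ℤ) →ₗ[ℂ] SN (N * p) (k : ℤ)) (hU : IsUp (N * p) (k : ℤ) p U) (P : ℚ[X])
    (hmult : ∀ μ : ℂ, (P.map (algebraMap ℚ ℂ)).rootMultiplicity μ =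
      Module.finrank ℂ (Module.End.maxGenEigenspace U μ)) (f : ℝ → ℝ) :
    ((P.map (algebraMap ℚ (PadicAlgCl p))).roots.map
        (fun x => f (-Real.logb (p : ℝ) ‖x‖ / ((k : ℝ) - 1)))).sum =
      ((heckeEigs N (k : ℤ) p).map fun a =>
        f (ws p (avI ι) (((k : ℝ) - 1) / 2) a / ((k : ℝ) - 1)) +
        f (1 - ws p (avI ι) (((k : ℝ) - 1) / 2) a / ((k : ℝ) - 1))).sum +
      ((Module.finrank ℂ (SN (N * p) (k : ℤ)) : ℝ) - 2 * Module.finrank ℂ (SN N (k : ℤ))) *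
        f ((((k : ℝ) - 2) / 2) / ((k : ℝ) - 1)) := by
  have hpp : p.Prime := Fact.out
  have hp0 : (p : ℂ) ≠ 0 := by exact_mod_cast hpp.ne_zero
  have hNp : N * p ≠ 0 := Nat.mul_ne_zero hN hpp.ne_zero
  have hf1 := h9 N hN (k : ℤ)
  have hf2 := h9 (N * p) hNp (k : ℤ)
  obtain ⟨i, i', W, -, -, hA, hB, hC, hD, hE, hF, hG⟩ :=
    h1 p N hN hp (k : ℤ) (heckeOp N (k : ℤ) p) U (isHecke_heckeOp hp h10 _) hU
  have hd : ((p : ℂ) ^ ((k : ℤ) - 2))⁻¹ = (p : ℂ) ^ (2 - (k : ℤ)) := by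
    rw [← zpow_neg]
    congr 1
    ring
  obtain ⟨Q, hQ1, hQ2, hQ3⟩ := h2 ℂ (SN N (k : ℤ)) (SN (N * p) (k : ℤ)) ((p : ℂ) ^ ((k : ℤ) - 1))
    ((p : ℂ) ^ ((k : ℤ) - 2)) (heckeOp N (k : ℤ) p) U W i i' (zpow_ne_zero _ hp0)
    (zpow_ne_zero _ hp0) hA hB hC hD hE (by rw [hd]; exact hF) hG
  have hroots : (P.map (algebraMap ℚ ℂ)).roots = U.charpoly.roots := roots_eq_of_mult U _ hmult
  rw [roots_transport ι, hroots, hQ1, Multiset.map_add, Multiset.map_add, Multiset.sum_add,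
    Multiset.map_map, Multiset.map_map]
  congr 1
  · rw [Multiset.map_bind, Multiset.sum_bind, ← heckeEigs_eq N (h9 N hN)]
    congr 1
    apply Multiset.map_congr rfl
    intro a ha
    have hc : ι ((p : ℂ) ^ ((k : ℤ) - 1)) = (p : PadicAlgCl p) ^ (k - 1) := by
      have e : (k : ℤ) - 1 = ((k - 1 : ℕ) : ℤ) := by
        rw [Nat.cast_sub (by omega)]
        simp
      rw [e, zpow_natCast, map_pow, map_natCast]
    have h3 := h7 p ι a k hk (hle a ha)
    rw [← hc, ← roots_quad ι, Multiset.map_map] at h3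
    have h4 : ((Polynomial.X ^ 2 - Polynomial.C a * Polynomial.X
        + Polynomial.C ((p : ℂ) ^ ((k : ℤ) - 1)) : ℂ[X]).roots).map
        ((fun x => f (-Real.logb (p : ℝ) ‖x‖ / ((k : ℝ) - 1))) ∘ ι)
        = (((Polynomial.X ^ 2 - Polynomial.C a * Polynomial.X
        + Polynomial.C ((p : ℂ) ^ ((k : ℤ) - 1)) : ℂ[X]).roots).map (vAlg p ∘ ι)).map
          (fun t => f (t / ((k : ℝ) - 1))) := by
      rw [Multiset.map_map]
      rfl
    rw [h4, h3]
    have hk1 : ((k : ℝ) - 1) ≠ 0 := by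
      have : (2 : ℝ) ≤ k := by exact_mod_cast hk
      linarith
    simp only [Multiset.insert_eq_cons, Multiset.map_cons, Multiset.map_singleton,
      Multiset.sum_cons, Multiset.sum_singleton]
    congr 2
    field_simp
  · have h3 : Q.map ((fun x => f (-Real.logb (p : ℝ) ‖x‖ / ((k : ℝ) - 1))) ∘ ι)
        = Q.map (fun _ => f ((((k : ℝ) - 2) / 2) / ((k : ℝ) - 1))) := by
      apply Multiset.map_congr rfl
      intro x hx
      simp only [Function.comp_apply]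
      rw [vAlg_new h0 ι k hk x (hQ2 x hx)]
    rw [h3, Multiset.map_const', Multiset.sum_replicate, nsmul_eq_mul]
    congr 1
    have : (Multiset.card Q : ℝ) + 2 * Module.finrank ℂ (SN N (k : ℤ))
        = Module.finrank ℂ (SN (N * p) (k : ℤ)) := by exact_mod_cast hQ3
    linarith

theorem le_one_of_ws {p : ℕ} [Fact p.Prime] (av : AbsoluteValue ℂ ℝ) (S : ℝ) (a : ℂ)
    (h : 0 ≤ ws p av S a) : av a ≤ 1 := by
  have hpp : p.Prime := Fact.out
  have hp0 : (0 : ℝ) < p := by exact_mod_cast hpp.pos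
  have hp1 : (1 : ℝ) < p := by exact_mod_cast hpp.one_lt
  unfold ws at h
  have hpos : 0 < max (av a) ((p : ℝ) ^ (-S)) :=
    lt_max_of_lt_right (Real.rpow_pos_of_pos hp0 _)
  have h1 : Real.logb p (max (av a) ((p : ℝ) ^ (-S))) ≤ 0 := by linarith
  rw [Real.logb_nonpos_iff hp1 hpos] at h1
  exact (le_max_left _ _).trans h1

theorem tendsto_ratio (d : ℕ → ℝ) (ψ C : ℝ)
    (h : ∀ m : ℕ, ψ * (2 * m) ≤ 12 * d m + C ∧ 12 * d m ≤ ψ * (2 * m) + C) :
    Tendsto (fun m : ℕ => d m / m) atTop (nhds (ψ / 6)) := by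
  have hlim : Tendsto (fun m : ℕ => C / 12 * (1 / (m : ℝ))) atTop (nhds 0) := by
    have := (tendsto_one_div_atTop_nhds_zero_nat (𝕜 := ℝ)).const_mul (C / 12)
    simpa using this
  have hlo : Tendsto (fun m : ℕ => ψ / 6 - C / 12 * (1 / (m : ℝ))) atTop (nhds (ψ / 6)) := by
    have := (tendsto_const_nhds (x := ψ / 6)).sub hlim
    simpa using this
  have hhi : Tendsto (fun m : ℕ => ψ / 6 + C / 12 * (1 / (m : ℝ))) atTop (nhds (ψ / 6)) := by
    have := (tendsto_const_nhds (x := ψ / 6)).add hlim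
    simpa using this
  refine tendsto_of_tendsto_of_tendsto_of_le_of_le' hlo hhi ?_ ?_
  · filter_upwards [eventually_gt_atTop 0] with m hm
    have hm0 : (0 : ℝ) < m := by exact_mod_cast hm
    have h1 := (h m).1
    rw [le_div_iff₀ hm0]
    have : (ψ / 6 - C / 12 * (1 / (m : ℝ))) * m = ψ / 6 * m - C / 12 := by
      field_simp
    rw [this]
    linarith
  · filter_upwards [eventually_gt_atTop 0] with m hm
    have hm0 : (0 : ℝ) < m := by exact_mod_cast hm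
    have h1 := (h m).2
    rw [div_le_iff₀ hm0]
    have : (ψ / 6 + C / 12 * (1 / (m : ℝ))) * m = ψ / 6 * m + C / 12 := by
      field_simp
    rw [this]
    linarith

theorem tendsto_half : Tendsto (fun m : ℕ => ((2 * (m : ℝ) - 2) / 2) / (2 * (m : ℝ) - 1)) atTop
    (nhds (1 / 2)) := by
  have h1 : Tendsto (fun m : ℕ => 1 / (m : ℝ)) atTop (nhds 0) :=
    tendsto_one_div_atTop_nhds_zero_nat (𝕜 := ℝ)
  have h2 : Tendsto (fun m : ℕ => (1 - 1 / (m : ℝ)) / (2 - 1 / (m : ℝ))) atTop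
      (nhds ((1 - 0) / (2 - 0))) :=
    (tendsto_const_nhds.sub h1).div (tendsto_const_nhds.sub h1) (by norm_num)
  have h3 : ((1 : ℝ) - 0) / (2 - 0) = 1 / 2 := by norm_num
  rw [h3] at h2
  refine h2.congr' ?_
  filter_upwards [eventually_gt_atTop 0] with m hm
  have hm0 : (1 : ℝ) ≤ m := by exact_mod_cast hm
  have hm1 : (m : ℝ) ≠ 0 := by linarith
  have hm2 : 2 * (m : ℝ) - 1 ≠ 0 := by linarith
  have hm3 : (2 : ℝ) - 1 / m ≠ 0 := by
    have : 1 / (m : ℝ) ≤ 1 := by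
      rw [div_le_one (by linarith)]
      exact hm0
    linarith
  rw [div_eq_div_iff hm3 hm2]
  field_simp

theorem tendsto_even : Tendsto (fun m : ℕ => 2 * m - 2) atTop (atTop ⊓ 𝓟 {n : ℕ | Even n}) := by
  rw [tendsto_inf]
  constructor
  · apply tendsto_atTop_mono (f := fun m => m - 2)
    · intro m; omega
    · exact tendsto_sub_atTop_nat 2
  · rw [tendsto_principal]
    filter_upwards with m
    exact ⟨m - 1, by omega⟩

end F5

open F5 in
theorem f5 (h1 : FAL) (h2 : FEig) (h3 : FInd) (h4 : FDim)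
    (h5 : ∀ (p N : ℕ) [Fact p.Prime], N ≠ 0 → ¬ p ∣ N → GPer p N)
    (h6 : ∀ (p N : ℕ) [Fact p.Prime], N ≠ 0 → ¬ p ∣ N → EInt p N) (h7 : ERoots) (h8 : E0Iso)
    (h9 : ∀ N, N ≠ 0 → FinDim N) (h10 : ∀ N, N ≠ 0 → HeckeExists N) (h0 : E0NA) : F16353 := by
  intro p hpf N hN hco T P hT hP f
  have hpp : p.Prime := Fact.out
  have hp0 : (0 : ℝ) < p := by exact_mod_cast hpp.pos
  have hN0 : N ≠ 0 := hN.ne'
  have hNp : N * p ≠ 0 := Nat.mul_ne_zero hN0 hpp.ne_zero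
  have hpN : ¬ p ∣ N := (Nat.Prime.coprime_iff_not_dvd hpp).mp hco.symm
  obtain ⟨ι⟩ := h8 p
  obtain ⟨k0, hk0⟩ := h6 p N hN0 hpN
  have hGc : Continuous fun x : ℝ => f x + f (1 - x) :=
    f.continuous.add (f.continuous.comp (continuous_const.sub continuous_id))
  have hG := (h5 p N hN0 hpN ι (fun x : ℝ => f x + f (1 - x)) hGc).comp tendsto_even
  set ψ : ℝ := ((Gamma0 N).index : ℝ) with hψ
  have hψ0 : 0 < ψ := by
    rw [hψ]
    have : (Gamma0 N).index ≠ 0 := by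
      have : NeZero N := ⟨hN0⟩
      exact Subgroup.FiniteIndex.index_ne_zero
    exact_mod_cast Nat.pos_of_ne_zero this
  have hψp : ((Gamma0 (N * p)).index : ℝ) = ((p : ℝ) + 1) * ψ := by
    rw [h3 p N hN0 hpN, hψ]
    push_cast
    ring
  obtain ⟨C1, hC1⟩ := h4 N hN0
  obtain ⟨C2, hC2⟩ := h4 (N * p) hNp
  have hd := tendsto_ratio (fun m => (Module.finrank ℂ (SN N ((2 * m : ℕ) : ℤ)) : ℝ)) ψ C1
    (fun m => by
      obtain ⟨a, b⟩ := hC1 (2 * m) (even_two_mul m)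
      rw [hψ]
      constructor
      · exact_mod_cast a
      · exact_mod_cast b)
  have hD := tendsto_ratio (fun m => (Module.finrank ℂ (SN (N * p) ((2 * m : ℕ) : ℤ)) : ℝ))
    (((p : ℝ) + 1) * ψ) C2
    (fun m => by
      obtain ⟨a, b⟩ := hC2 (2 * m) (even_two_mul m)
      rw [← hψp]
      constructor
      · exact_mod_cast a
      · exact_mod_cast b)
  have hDpos : ((p : ℝ) + 1) * ψ / 6 ≠ 0 := by positivity
  have hr : Tendsto (fun m : ℕ => (Module.finrank ℂ (SN N ((2 * m : ℕ) : ℤ)) : ℝ) /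
      (Module.finrank ℂ (SN (N * p) ((2 * m : ℕ) : ℤ)) : ℝ)) atTop (nhds (1 / ((p : ℝ) + 1))) := by
    have h := hd.div hD hDpos
    have e : ψ / 6 / (((p : ℝ) + 1) * ψ / 6) = 1 / ((p : ℝ) + 1) := by
      field_simp
    rw [e] at h
    refine h.congr' ?_
    filter_upwards [eventually_gt_atTop 0] with m hm
    have hm0 : (m : ℝ) ≠ 0 := by
      have : (0 : ℝ) < m := by exact_mod_cast hm
      exact this.ne'
    simp only [Pi.div_apply]
    rw [div_div_div_cancel_right₀ hm0]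
  have hdne : ∀ᶠ m : ℕ in atTop, (Module.finrank ℂ (SN N ((2 * m : ℕ) : ℤ)) : ℝ) ≠ 0 := by
    have := hd.eventually (eventually_ne_nhds (b := 0) (by positivity))
    filter_upwards [this] with m hm h
    apply hm
    rw [h, zero_div]
  have hDne : ∀ᶠ m : ℕ in atTop, (Module.finrank ℂ (SN (N * p) ((2 * m : ℕ) : ℤ)) : ℝ) ≠ 0 := by
    have := hD.eventually (eventually_ne_nhds (b := 0) hDpos)
    filter_upwards [this] with m hm h
    apply hm
    rw [h, zero_div]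
  have hfh : Tendsto (fun m : ℕ => f (((2 * (m : ℝ) - 2) / 2) / (2 * (m : ℝ) - 1))) atTop
      (nhds (f (1 / 2))) := (f.continuous.tendsto _).comp tendsto_half
  have hmain := (hr.mul hG).add ((((tendsto_const_nhds (x := (1 : ℝ))).sub
    (hr.const_mul 2))).mul hfh)
  have hlim : 1 / ((p : ℝ) + 1) * (((p : ℝ) + 1) *
      ∫ x in (0 : ℝ)..(1 / ((p : ℝ) + 1)), (f x + f (1 - x))) +
      (1 - 2 * (1 / ((p : ℝ) + 1))) * f (1 / 2) =
      (∫ x in (0 : ℝ)..(1 / ((p : ℝ) + 1)), f x) +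
          (∫ x in ((p : ℝ) / ((p : ℝ) + 1))..(1 : ℝ), f x) +
          ((p : ℝ) - 1) / ((p : ℝ) + 1) * f (1 / 2) := by
    have hp1 : (p : ℝ) + 1 ≠ 0 := by positivity
    have e1 : ∫ x in (0 : ℝ)..(1 / ((p : ℝ) + 1)), (f x + f (1 - x)) =
        (∫ x in (0 : ℝ)..(1 / ((p : ℝ) + 1)), f x) +
        ∫ x in ((p : ℝ) / ((p : ℝ) + 1))..(1 : ℝ), f x := by
      have hci : Continuous fun x : ℝ => f (1 - x) :=
        f.continuous.comp (continuous_const.sub continuous_id)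
      rw [intervalIntegral.integral_add (f.continuous.intervalIntegrable _ _)
        (hci.intervalIntegrable _ _)]
      congr 1
      have e2 := intervalIntegral.integral_comp_sub_left (a := 0) (b := 1 / ((p : ℝ) + 1))
        (fun x => f x) (1 : ℝ)
      rw [e2]
      congr 1
      · field_simp
        ring
      · ring
    rw [e1, ← mul_assoc, one_div_mul_cancel hp1, one_mul]
    congr 2
    field_simp
    ring
  rw [hlim] at hmain
  refine hmain.congr' ?_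
  filter_upwards [hdne, hDne, eventually_ge_atTop (k0 + 1)] with m hm1 hm2 hm3
  have hle : ∀ a ∈ heckeEigs N ((2 * m : ℕ) : ℤ) p, avI ι a ≤ 1 := by
    intro a ha
    have := (hk0 (2 * m) (by omega) (even_two_mul m) ι (fun _ => 0) continuous_const).2.1 a ha
    exact le_one_of_ws _ _ _ this.1
  have hc : ((2 * m : ℕ) : ℝ) = 2 * (m : ℝ) := by push_cast; ring
  have hs := sum_eq h1 h2 h7 h0 hN0 hpN h9 (h10 N hN0) (2 * m) (by omega) ι hle (T (2 * m))
    (hT (2 * m)) (P (2 * m)) (hP (2 * m)).2.2 f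
  rw [hc] at hs
  rw [hs]
  obtain ⟨m', rfl⟩ : ∃ m', m = m' + 1 := ⟨m - 1, by omega⟩
  have e0 : 2 * (m' + 1) - 2 = 2 * m' := by omega
  have e1 : ((2 * m' : ℕ) : ℤ) + 2 = ((2 * (m' + 1) : ℕ) : ℤ) := by push_cast; ring
  have e2 : ((2 * m' : ℕ) : ℝ) + 1 = 2 * (((m' + 1 : ℕ) : ℝ)) - 1 := by push_cast; ring
  simp only [Function.comp_apply, e0, e1, e2]
  rw [card_heckeEigs N (h9 N hN0)]
  field_simp

end Gou
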