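import Pool.Agent.Work.MP_602313_nt.F.FStmts
import Pool.Agent.Work.MP_602313_nt.Bd.B11

/-!
MP_602313_nt, item F4: dimension asymptotics for all levels.
-/

noncomputable section

namespace Gou

theorem fDim (h : ∀ N, N ≠ 0 → DimLower N) (hf : ∀ N, N ≠ 0 → FinDim N)
    (hc : ∀ (p N : ℕ) [Fact p.Prime], N ≠ 0 → ¬ p ∣ N → CoordExists p N) : FDim := by
  intro N hN
  obtain ⟨p, hp, hpp⟩ := Nat.exists_infinite_primes (N + 1)
  have : Fact p.Prime := ⟨hpp⟩
  have hd : ¬ p ∣ N := fun hd => by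
    have := Nat.le_of_dvd (Nat.pos_of_ne_zero hN) hd
    omega
  exact e5 (h N hN) (hc p N hN hd) (hf N hN)

end Gou
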