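import Pool.Agent.Work.MP_602313_nt.F.FStmts

/-! FEig: the eigenvalues of `U` on the space spanned by old and new forms (helper90). -/

open scoped Polynomial

noncomputable section

namespace Gou.FEigAux

theorem exists_basis {K V : Type*} [Field K] [AddCommGroup V] [Module K V]
    [FiniteDimensional K V] (W : Submodule K V) :
    ∃ (m n : ℕ) (bW : Module.Basis (Fin m) K W) (b : Module.Basis (Fin m ⊕ Fin n) K V),
      (∀ i, b (Sum.inl i) = (bW i : V)) ∧
      (∀ (w : W) (i : Fin m), b.repr (w : V) (Sum.inl i) = bW.repr w i) ∧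
      (∀ (w : W) (j : Fin n), b.repr (w : V) (Sum.inr j) = 0) := by
  classical
  obtain ⟨C, hC⟩ := W.exists_isCompl
  let bW := Module.finBasis K W
  let bC := Module.finBasis K C
  let b := (bW.prod bC).map (Submodule.prodEquivOfIsCompl W C hC)
  have hrepr : ∀ (w : W), b.repr (w : V) = (bW.prod bC).repr (w, 0) := by
    intro w
    change (bW.prod bC).repr ((Submodule.prodEquivOfIsCompl W C hC).symm (w : V)) = _
    rw [Submodule.prodEquivOfIsCompl_symm_apply_left]
  refine ⟨_, _, bW, b, ?_, ?_, ?_⟩
  · intro i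
    change (Submodule.prodEquivOfIsCompl W C hC) (bW.prod bC (Sum.inl i)) = _
    rw [Module.Basis.prod_apply]
    simp
  · intro w i
    rw [hrepr, Module.Basis.prod_repr_inl]
  · intro w j
    rw [hrepr, Module.Basis.prod_repr_inr]
    simp

theorem prod_aux {K : Type*} [Field K] (c x : K) (hx : x ≠ 0) (S : Multiset K) :
    x ^ (Multiset.card S) * (S.map fun a => x + c / x - a).prod =
      (S.map fun a => x ^ 2 - a * x + c).prod := by
  induction S using Multiset.induction_on with
  | empty => simp
  | cons a S ih =>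
    rw [Multiset.map_cons, Multiset.map_cons, Multiset.prod_cons, Multiset.prod_cons,
      Multiset.card_cons, ← ih, pow_succ]
    field_simp
    ring

/-- The characteristic polynomial on `E × E`. -/
theorem charpoly_block {K : Type} [Field K] [IsAlgClosed K] {E : Type} [AddCommGroup E] [Module K E]
    [Module.Finite K E] (T : E →ₗ[K] E) (c : K) (U0 : (E × E) →ₗ[K] (E × E))
    (h : ∀ f g, U0 (f, g) = (T f + c • g, -f)) :
    U0.charpoly = (T.charpoly.roots.map fun a => (Polynomial.X ^ 2 - Polynomial.C a * Polynomial.X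
      + Polynomial.C c : K[X])).prod := by
  classical
  set S := T.charpoly.roots with hS
  have hT : T.charpoly = (S.map fun a => (Polynomial.X - Polynomial.C a : K[X])).prod := by
    have h1 := (IsAlgClosed.splits T.charpoly).eq_prod_roots
    rw [T.charpoly_monic.leadingCoeff, map_one, one_mul] at h1
    exact h1
  have hcard : Multiset.card S = Module.finrank K E := by
    rw [hS, IsAlgClosed.card_roots_eq_natDegree, LinearMap.charpoly_natDegree]
  let bE := Module.finBasis K E
  have hinf : Set.Infinite {x : K | x ≠ 0} := by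
    have : Infinite K := IsAlgClosed.instInfinite
    exact (Set.finite_singleton (0 : K)).infinite_compl
  refine Polynomial.eq_of_infinite_eval_eq _ _ (hinf.mono ?_)
  intro x hx
  have hx0 : x ≠ 0 := hx
  show Polynomial.eval x U0.charpoly = Polynomial.eval x _
  let b := bE.prod bE
  let MT := LinearMap.toMatrix bE bE T
  let n := Fin (Module.finrank K E)
  have hM : LinearMap.toMatrix b b U0 =
      Matrix.fromBlocks MT (c • (1 : Matrix n n K)) (-(1 : Matrix n n K)) 0 := by
    ext i j
    rcases i with i | i <;> rcases j with j | j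
    · rw [LinearMap.toMatrix_apply, Matrix.fromBlocks_apply₁₁]
      change _ = LinearMap.toMatrix bE bE T i j
      rw [LinearMap.toMatrix_apply]
      have hb : b (Sum.inl j) = (bE j, 0) := by
        simp [b, Module.Basis.prod_apply]
      rw [hb, h]
      simp [b, Module.Basis.prod_repr_inl]
    · rw [LinearMap.toMatrix_apply, Matrix.fromBlocks_apply₁₂]
      have hb : b (Sum.inr j) = (0, bE j) := by
        simp [b, Module.Basis.prod_apply]
      rw [hb, h]
      simp [b, Module.Basis.prod_repr_inl, Finsupp.single_apply, Matrix.one_apply, eq_comm]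
    · rw [LinearMap.toMatrix_apply, Matrix.fromBlocks_apply₂₁]
      have hb : b (Sum.inl j) = (bE j, 0) := by
        simp [b, Module.Basis.prod_apply]
      rw [hb, h]
      simp [b, Module.Basis.prod_repr_inr, Finsupp.single_apply, Matrix.one_apply, eq_comm]
    · rw [LinearMap.toMatrix_apply, Matrix.fromBlocks_apply₂₂]
      have hb : b (Sum.inr j) = (0, bE j) := by
        simp [b, Module.Basis.prod_apply]
      rw [hb, h]
      simp [b, Module.Basis.prod_repr_inr]
  have hM2 : Matrix.scalar (n ⊕ n) x - Matrix.fromBlocks MT (c • (1 : Matrix n n K))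
      (-(1 : Matrix n n K)) 0 = Matrix.fromBlocks (Matrix.scalar n x - MT)
        (-(c • (1 : Matrix n n K))) 1 (x • (1 : Matrix n n K)) := by
    ext i j
    rcases i with i | i <;> rcases j with j | j <;>
      simp [Matrix.scalar_apply, Matrix.diagonal_apply, Matrix.one_apply]
  let iv : Invertible (x • (1 : Matrix n n K)) :=
    ⟨x⁻¹ • 1, by simp [hx0], by simp [hx0]⟩
  have hinv : ⅟(x • (1 : Matrix n n K)) = x⁻¹ • (1 : Matrix n n K) := rfl
  have hdet : (Matrix.fromBlocks (Matrix.scalar n x - MT)
        (-(c • (1 : Matrix n n K))) 1 (x • (1 : Matrix n n K))).det =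
      x ^ (Module.finrank K E) * (Matrix.scalar n (x + c / x) - MT).det := by
    rw [Matrix.det_fromBlocks₂₂, hinv, Matrix.det_smul, Matrix.det_one, mul_one, Fintype.card_fin]
    congr 2
    ext i j
    simp [Matrix.scalar_apply, Matrix.diagonal_apply, Matrix.one_apply]
    split_ifs
    · field_simp
      ring
    · ring
  rw [← LinearMap.charpoly_toMatrix U0 b, Matrix.eval_charpoly, hM, hM2, hdet,
    ← Matrix.eval_charpoly, LinearMap.charpoly_toMatrix, hT, Polynomial.eval_multiset_prod,
    Polynomial.eval_multiset_prod, Multiset.map_map, Multiset.map_map, ← hcard]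
  have h1 := prod_aux c x hx0 S
  have e1 : (S.map (Polynomial.eval (x + c / x) ∘ fun a => (Polynomial.X - Polynomial.C a : K[X]))) =
      S.map fun a => x + c / x - a := Multiset.map_congr rfl fun a _ => by simp
  have e2 : (S.map (Polynomial.eval x ∘ fun a => (Polynomial.X ^ 2 - Polynomial.C a * Polynomial.X
      + Polynomial.C c : K[X]))) = S.map fun a => x ^ 2 - a * x + c :=
    Multiset.map_congr rfl fun a _ => by simp
  rw [e1, e2]
  exact h1

end Gou.FEigAux

namespace Gou

open FEigAux in
theorem fEig : FEig := by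
  intro K _ _ E E' _ _ _ _ _ _ c d T U W i i' hc hd hUi hUi' hWW hWi hWi' htr hinj
  classical
  -- the embedding of `E × E`
  let Φ : (E × E) →ₗ[K] E' := i.coprod i'
  have hΦa : ∀ f g, Φ (f, g) = i f + i' g := fun f g => by simp [Φ]
  have hΦ : Function.Injective Φ := by
    rw [← LinearMap.ker_eq_bot, LinearMap.ker_eq_bot']
    rintro ⟨f, g⟩ h
    rw [hΦa] at h
    obtain ⟨h1, h2⟩ := hinj f g h
    rw [h1, h2]
    rfl
  let U0 : (E × E) →ₗ[K] (E × E) :=
    LinearMap.prod (T.comp (LinearMap.fst K E E) + c • LinearMap.snd K E E)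
      (-(LinearMap.fst K E E))
  have hU0 : ∀ f g, U0 (f, g) = (T f + c • g, -f) := fun f g => by simp [U0]
  have hUΦ : ∀ y, U (Φ y) = Φ (U0 y) := by
    rintro ⟨f, g⟩
    rw [hU0, hΦa, hΦa, map_add, hUi, hUi', map_add, map_smul, map_neg]
    abel
  set O := LinearMap.range Φ with hO
  have hUO : ∀ x ∈ O, U x ∈ O := by
    rintro _ ⟨y, rfl⟩
    exact ⟨U0 y, (hUΦ y).symm⟩
  have hWO : ∀ x ∈ O, W x ∈ O := by
    rintro _ ⟨⟨f, g⟩, rfl⟩
    refine ⟨(d • g, f), ?_⟩
    rw [hΦa, hΦa, map_add, hWi, hWi', map_smul]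
    abel
  have htrO : ∀ f, f + d⁻¹ • U (W f) ∈ O := by
    intro f
    obtain ⟨g, hg⟩ := htr f
    refine ⟨(g, 0), ?_⟩
    rw [hΦa, map_zero, add_zero, hg]
  obtain ⟨m, n, bO, b, hb1, hb2, hb3⟩ := exists_basis O
  set MU := LinearMap.toMatrix b b U with hMU
  set MW := LinearMap.toMatrix b b W with hMW
  have hU21 : MU.toBlocks₂₁ = 0 := by
    ext j k
    change LinearMap.toMatrix b b U (Sum.inr j) (Sum.inl k) = 0
    rw [LinearMap.toMatrix_apply, hb1]
    exact hb3 ⟨U (bO k), hUO _ (bO k).2⟩ j
  have hW21 : MW.toBlocks₂₁ = 0 := by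
    ext j k
    change LinearMap.toMatrix b b W (Sum.inr j) (Sum.inl k) = 0
    rw [LinearMap.toMatrix_apply, hb1]
    exact hb3 ⟨W (bO k), hWO _ (bO k).2⟩ j
  let e : (E × E) ≃ₗ[K] O := LinearEquiv.ofInjective Φ hΦ
  have hconj : U.restrict hUO = e.conj U0 := by
    ext1 ⟨x, hx⟩
    obtain ⟨y, rfl⟩ := hx
    apply Subtype.ext
    have h1 : e.symm ⟨Φ y, ⟨y, rfl⟩⟩ = y := by
      rw [LinearEquiv.symm_apply_eq]
      rfl
    rw [LinearEquiv.conj_apply_apply, h1]
    exact hUΦ y
  have hU11 : MU.toBlocks₁₁ = LinearMap.toMatrix bO bO (U.restrict hUO) := by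
    ext j k
    change LinearMap.toMatrix b b U (Sum.inl j) (Sum.inl k) = _
    rw [LinearMap.toMatrix_apply, LinearMap.toMatrix_apply, hb1]
    exact hb2 ⟨U (bO k), hUO _ (bO k).2⟩ j
  set D := MU.toBlocks₂₂ with hD
  set D' := MW.toBlocks₂₂ with hD'
  have hMUb : MU = Matrix.fromBlocks MU.toBlocks₁₁ MU.toBlocks₁₂ 0 D := by
    rw [← hU21, hD, Matrix.fromBlocks_toBlocks]
  have hMWb : MW = Matrix.fromBlocks MW.toBlocks₁₁ MW.toBlocks₁₂ 0 D' := by
    rw [← hW21, hD', Matrix.fromBlocks_toBlocks]
  -- the relations in the quotient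
  have hDD : D' * D' = d • (1 : Matrix (Fin n) (Fin n) K) := by
    have h1 : MW * MW = d • (1 : Matrix (Fin m ⊕ Fin n) (Fin m ⊕ Fin n) K) := by
      rw [hMW, ← LinearMap.toMatrix_comp b b b]
      have h2 : W ∘ₗ W = d • LinearMap.id := by
        ext x
        simp [hWW]
      rw [h2, map_smul, LinearMap.toMatrix_id]
    have h3 := congrArg Matrix.toBlocks₂₂ h1
    rw [hMWb, Matrix.fromBlocks_multiply, Matrix.toBlocks_fromBlocks₂₂, Matrix.zero_mul,
      zero_add] at h3
    rw [h3]
    ext j k
    simp [Matrix.toBlocks₂₂, Matrix.one_apply]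
  have hDD2 : D * D' = -(d • (1 : Matrix (Fin n) (Fin n) K)) := by
    have h1 : (MU * MW).toBlocks₂₂ = D * D' := by
      rw [hMUb, hMWb, Matrix.fromBlocks_multiply, Matrix.toBlocks_fromBlocks₂₂, Matrix.zero_mul,
        zero_add]
    have h2 : (1 : Matrix (Fin n) (Fin n) K) + d⁻¹ • (MU * MW).toBlocks₂₂ = 0 := by
      ext j k
      have h3 := hb3 ⟨b (Sum.inr k) + d⁻¹ • U (W (b (Sum.inr k))), htrO _⟩ j
      simp only [map_add, map_smul, Finsupp.coe_add, Finsupp.coe_smul, Pi.add_apply,
        Pi.smul_apply] at h3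
      have h4 : MU * MW = LinearMap.toMatrix b b (U ∘ₗ W) := by
        rw [hMU, hMW, ← LinearMap.toMatrix_comp b b b]
      rw [h4]
      change (1 : Matrix (Fin n) (Fin n) K) j k + d⁻¹ *
        LinearMap.toMatrix b b (U ∘ₗ W) (Sum.inr j) (Sum.inr k) = 0
      rw [LinearMap.toMatrix_apply]
      have h5 : b.repr (b (Sum.inr k)) (Sum.inr j) = (1 : Matrix (Fin n) (Fin n) K) j k := by
        rw [Module.Basis.repr_self, Finsupp.single_apply, Matrix.one_apply]
        simp [eq_comm]
      rw [← h5]
      exact h3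
    rw [← h1]
    have h3 : (MU * MW).toBlocks₂₂ = d • (d⁻¹ • (MU * MW).toBlocks₂₂) := by
      rw [smul_smul, mul_inv_cancel₀ hd, one_smul]
    rw [h3, ← smul_neg]
    congr 1
    exact eq_neg_of_add_eq_zero_right h2
  have hD2 : D * D = d • (1 : Matrix (Fin n) (Fin n) K) := by
    have h1 : D = -D' := by
      have h2 : D * (D' * D') = -(d • D') := by
        rw [← Matrix.mul_assoc, hDD2, Matrix.neg_mul, Matrix.smul_mul, Matrix.one_mul]
      rw [hDD, Matrix.mul_smul, Matrix.mul_one, ← smul_neg] at h2
      exact smul_right_injective _ hd h2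
    rw [h1, Matrix.neg_mul, Matrix.mul_neg, neg_neg, hDD]
  -- characteristic polynomials
  have hchar : U.charpoly = (T.charpoly.roots.map fun a =>
      (Polynomial.X ^ 2 - Polynomial.C a * Polynomial.X + Polynomial.C c : K[X])).prod *
        D.charpoly := by
    rw [← LinearMap.charpoly_toMatrix U b, ← hMU, hMUb, Matrix.charpoly_fromBlocks_zero₂₁, hU11,
      LinearMap.charpoly_toMatrix, hconj, LinearEquiv.charpoly_conj, charpoly_block T c U0 hU0]
  have hmon : ∀ a : K, (Polynomial.X ^ 2 - Polynomial.C a * Polynomial.X + Polynomial.C c : K[X]).Monic ∧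
      (Polynomial.X ^ 2 - Polynomial.C a * Polynomial.X + Polynomial.C c : K[X]).natDegree = 2 := by
    intro a
    constructor
    · monicity!
    · compute_degree!
  have hne : U.charpoly ≠ 0 := U.charpoly_monic.ne_zero
  have hne2 := hchar ▸ hne
  have hroots : U.charpoly.roots =
      (T.charpoly.roots.bind fun a => (Polynomial.X ^ 2 - Polynomial.C a * Polynomial.X
        + Polynomial.C c : K[X]).roots) + D.charpoly.roots := by
    rw [hchar, Polynomial.roots_mul hne2, Polynomial.roots_multiset_prod, Multiset.bind_map]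
    intro h0
    obtain ⟨a, _, ha⟩ := Multiset.mem_map.1 h0
    exact (hmon a).1.ne_zero ha
  refine ⟨D.charpoly.roots, hroots, ?_, ?_⟩
  · intro x hx
    have hroot := (Polynomial.mem_roots'.1 hx).2
    have hev : Module.End.HasEigenvalue (Matrix.toLin' D) x := by
      rw [Module.End.hasEigenvalue_iff_isRoot_charpoly, Matrix.charpoly_toLin']
      exact hroot
    obtain ⟨v, hv⟩ := hev.exists_hasEigenvector
    have h1 : D.mulVec v = x • v := by
      have := hv.apply_eq_smul
      simpa using this
    have h2 : (D * D).mulVec v = (x ^ 2) • v := by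
      rw [← Matrix.mulVec_mulVec, h1, Matrix.mulVec_smul, h1, smul_smul, sq]
    rw [hD2, Matrix.smul_mulVec, Matrix.one_mulVec] at h2
    have h3 : (x ^ 2 - d) • v = 0 := by
      rw [sub_smul, ← h2, sub_self]
    rcases smul_eq_zero.1 h3 with h4 | h4
    · exact sub_eq_zero.1 h4
    · exact absurd h4 hv.2
  · have h1 : Multiset.card U.charpoly.roots = Module.finrank K E' := by
      rw [IsAlgClosed.card_roots_eq_natDegree, LinearMap.charpoly_natDegree]
    have h2 : Multiset.card T.charpoly.roots = Module.finrank K E := by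
      rw [IsAlgClosed.card_roots_eq_natDegree, LinearMap.charpoly_natDegree]
    rw [hroots, Multiset.card_add, Multiset.card_bind] at h1
    have h3 : (T.charpoly.roots.map (Multiset.card ∘ fun a => (Polynomial.X ^ 2 -
        Polynomial.C a * Polynomial.X + Polynomial.C c : K[X]).roots)).sum =
        2 * Module.finrank K E := by
      rw [Multiset.map_congr rfl (g := fun _ => 2) (fun a _ => by
        rw [Function.comp_apply, IsAlgClosed.card_roots_eq_natDegree, (hmon a).2])]
      rw [Multiset.map_const', Multiset.sum_replicate, h2, smul_eq_mul, mul_comm]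
    rw [h3] at h1
    omega

end Gou

end
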