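import Pool.Agent.Work.MP_602313_nt.F.FStmts

/-! FInd: the index of `Gamma0 (N p)` (helper90). -/

open scoped MatrixGroups ModularForm
open CongruenceSubgroup

noncomputable section

namespace Gou.FIndAux

/-- The point of the projective line over `F_p` given by the first column. -/
def pt (p : ℕ) [Fact p.Prime] (g : SL(2, ℤ)) : Option (ZMod p) :=
  if ((g 1 0 : ℤ) : ZMod p) = 0 then none else some (((g 0 0 : ℤ) : ZMod p) / ((g 1 0 : ℤ) : ZMod p))

theorem det_eq (p : ℕ) (g : SL(2, ℤ)) :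
    ((g 0 0 : ℤ) : ZMod p) * ((g 1 1 : ℤ) : ZMod p) - ((g 0 1 : ℤ) : ZMod p) * ((g 1 0 : ℤ) : ZMod p) = 1 := by
  have h := g.2
  rw [Matrix.det_fin_two] at h
  have h2 := congrArg (fun x : ℤ => (x : ZMod p)) h
  push_cast at h2
  exact h2

theorem inv_mul_10 (g h : SL(2, ℤ)) : (g⁻¹ * h) 1 0 = g 0 0 * h 1 0 - g 1 0 * h 0 0 := by
  rw [Matrix.SpecialLinearGroup.coe_mul, Matrix.mul_apply, Fin.sum_univ_two,
    Matrix.SpecialLinearGroup.coe_inv, Matrix.adjugate_fin_two]
  simp
  ring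

theorem pt_eq_iff (p : ℕ) [Fact p.Prime] (g h : SL(2, ℤ)) :
    pt p g = pt p h ↔ (((g⁻¹ * h) 1 0 : ℤ) : ZMod p) = 0 := by
  rw [inv_mul_10]
  have hg := det_eq p g
  have hh := det_eq p h
  push_cast
  unfold pt
  by_cases h1 : ((g 1 0 : ℤ) : ZMod p) = 0
  · rw [if_pos h1]
    have hg0 : ((g 0 0 : ℤ) : ZMod p) ≠ 0 := by
      intro h0
      rw [h0, h1] at hg
      simp at hg
    by_cases h2 : ((h 1 0 : ℤ) : ZMod p) = 0
    · rw [if_pos h2, h1, h2]
      simp
    · rw [if_neg h2, h1]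
      constructor
      · intro h3
        exact absurd h3 (by simp)
      · intro h3
        exfalso
        have : ((g 0 0 : ℤ) : ZMod p) * ((h 1 0 : ℤ) : ZMod p) = 0 := by
          linear_combination h3
        rcases mul_eq_zero.1 this with h4 | h4
        · exact hg0 h4
        · exact h2 h4
  · rw [if_neg h1]
    by_cases h2 : ((h 1 0 : ℤ) : ZMod p) = 0
    · have hh0 : ((h 0 0 : ℤ) : ZMod p) ≠ 0 := by
        intro h0
        rw [h0, h2] at hh
        simp at hh
      rw [if_pos h2, h2]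
      constructor
      · intro h3
        exact absurd h3 (by simp)
      · intro h3
        exfalso
        have : ((g 1 0 : ℤ) : ZMod p) * ((h 0 0 : ℤ) : ZMod p) = 0 := by
          linear_combination -h3
        rcases mul_eq_zero.1 this with h4 | h4
        · exact h1 h4
        · exact hh0 h4
    · rw [if_neg h2, Option.some_inj, div_eq_div_iff h1 h2]
      constructor
      · intro h3
        linear_combination h3
      · intro h3
        linear_combination h3

theorem mem_mul_iff (p N : ℕ) [Fact p.Prime] (hpN : ¬ p ∣ N) (g : SL(2, ℤ)) :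
    g ∈ Gamma0 (N * p) ↔ g ∈ Gamma0 N ∧ ((g 1 0 : ℤ) : ZMod p) = 0 := by
  rw [Gamma0_mem, Gamma0_mem, ZMod.intCast_zmod_eq_zero_iff_dvd, ZMod.intCast_zmod_eq_zero_iff_dvd,
    ZMod.intCast_zmod_eq_zero_iff_dvd]
  have hcop : IsCoprime (N : ℤ) (p : ℤ) := by
    rw [Nat.isCoprime_iff_coprime]
    exact ((Nat.Prime.coprime_iff_not_dvd Fact.out).2 hpN).symm
  push_cast
  exact ⟨fun h => ⟨(dvd_mul_right _ _).trans h, (dvd_mul_left _ _).trans h⟩,
    fun h => hcop.mul_dvd h.1 h.2⟩

theorem pt_surj (p N : ℕ) [Fact p.Prime] (hpN : ¬ p ∣ N) (t : Option (ZMod p)) :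
    ∃ g ∈ Gamma0 N, pt p g = t := by
  cases t with
  | none =>
    refine ⟨1, Subgroup.one_mem _, ?_⟩
    unfold pt
    rw [if_pos (by simp)]
  | some t =>
    have hp : p.Prime := Fact.out
    have hcop : Nat.Coprime p N := (Nat.Prime.coprime_iff_not_dvd hp).2 hpN
    obtain ⟨a, ha1, ha2⟩ := Nat.chineseRemainder hcop (t * (N : ZMod p)).val 1
    have hneN : ((N : ℕ) : ZMod p) ≠ 0 := by
      rw [Ne, ZMod.natCast_eq_zero_iff]
      exact hpN
    have haN : IsCoprime (a : ℤ) (N : ℤ) := by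
      rw [Nat.isCoprime_iff_coprime]
      have h1 : Nat.gcd a N = Nat.gcd 1 N := by
        have := ha2
        rw [Nat.gcd_comm a N, Nat.gcd_comm 1 N, Nat.gcd_rec N a, Nat.gcd_rec N 1]
        rw [show a % N = 1 % N from this]
      rw [Nat.Coprime, h1]
      exact Nat.gcd_one_left N
    obtain ⟨u, v, huv⟩ := haN
    have hap : ((a : ℕ) : ZMod p) = t * N := by
      have h1 := (ZMod.natCast_eq_natCast_iff a (t * (N : ZMod p)).val p).2 ha1
      have : NeZero p := ⟨hp.ne_zero⟩
      rw [h1, ZMod.natCast_zmod_val]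
    let g : SL(2, ℤ) := ⟨!![(a : ℤ), -v; (N : ℤ), u], by
      rw [Matrix.det_fin_two_of]
      linarith⟩
    have e00 : g 0 0 = (a : ℤ) := rfl
    have e10 : g 1 0 = (N : ℤ) := rfl
    refine ⟨g, ?_, ?_⟩
    · rw [Gamma0_mem, e10]
      simp
    · unfold pt
      rw [e00, e10]
      push_cast
      rw [if_neg hneN, hap, mul_div_cancel_right₀ _ hneN]

theorem relIndex_eq (p N : ℕ) [Fact p.Prime] (hpN : ¬ p ∣ N) :
    (Gamma0 (N * p)).relIndex (Gamma0 N) = p + 1 := by
  have hp : p.Prime := Fact.out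
  have : NeZero p := ⟨hp.ne_zero⟩
  rw [Subgroup.relIndex, Subgroup.index_eq_card]
  have hrel : ∀ g h : Gamma0 N, (g⁻¹ * h ∈ (Gamma0 (N * p)).subgroupOf (Gamma0 N)) ↔
      pt p (g : SL(2, ℤ)) = pt p (h : SL(2, ℤ)) := by
    intro g h
    rw [Subgroup.mem_subgroupOf, mem_mul_iff p N hpN, pt_eq_iff]
    constructor
    · intro hh
      exact hh.2
    · intro hh
      exact ⟨(g⁻¹ * h).2, hh⟩
  let F : (Gamma0 N) ⧸ (Gamma0 (N * p)).subgroupOf (Gamma0 N) → Option (ZMod p) :=
    Quotient.lift (fun g : Gamma0 N => pt p (g : SL(2, ℤ))) (by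
      intro g h hgh
      exact (hrel g h).1 (QuotientGroup.leftRel_apply.1 hgh))
  have hF : Function.Bijective F := by
    constructor
    · intro x y
      induction x using QuotientGroup.induction_on with | _ g =>
      induction y using QuotientGroup.induction_on with | _ h =>
      intro hgh
      rw [QuotientGroup.eq]
      exact (hrel g h).2 hgh
    · intro t
      obtain ⟨g, hg, ht⟩ := pt_surj p N hpN t
      exact ⟨QuotientGroup.mk (⟨g, hg⟩ : Gamma0 N), ht⟩
  rw [Nat.card_congr (Equiv.ofBijective F hF), Nat.card_eq_fintype_card, Fintype.card_option,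
    ZMod.card]

end Gou.FIndAux

namespace Gou

theorem fInd : FInd := by
  intro p N _ _ hpN
  have hle : Gamma0 (N * p) ≤ Gamma0 N := fun g hg =>
    ((FIndAux.mem_mul_iff p N hpN g).1 hg).1
  rw [← Subgroup.relIndex_mul_index hle, FIndAux.relIndex_eq p N hpN]

end Gou
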