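import Pool.Agent.Work.MP_602313_nt.Bd.B17
import Pool.Agent.Work.MP_602313_nt.Bd.B04

/-!
Module F: level `Gamma0 (N p)` (frozen statement S16353 of MP_28536b_nt) and the cumulative form
(MP_88d29b_nt), deduced from the distribution of the slopes of `T_p`.
-/

open scoped MatrixGroups ModularForm UpperHalfPlane Polynomial ENNReal
open CongruenceSubgroup UpperHalfPlane MeasureTheory Filter

noncomputable section

namespace Gou

/-- `U` is the operator `U_p` on `S_k(Gamma0 M)`. -/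
def IsUp (M : ℕ) (k : ℤ) (p : ℕ) (U : SN M k →ₗ[ℂ] SN M k) : Prop :=
  ∀ (f : SN M k) (z : ℍ), U f z = (1 / (p : ℂ)) * ∑ j ∈ Finset.range p,
    f (UpperHalfPlane.ofComplex (((z : ℂ) + (j : ℂ)) / (p : ℂ)))

/-- F1. Oldforms, the Atkin-Lehner operator `W` and the trace, `U` the operator `U_p` at level
`N p`, `T` the operator `T_p` at level `N`. `i f = f`, `i' f = p^(k-1) f(p z)`. -/
def FAL : Prop := ∀ (p N : ℕ) [Fact p.Prime], N ≠ 0 → ¬ p ∣ N → ∀ (k : ℤ)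
  (T : SN N k →ₗ[ℂ] SN N k) (U : SN (N * p) k →ₗ[ℂ] SN (N * p) k), IsHecke N k p T →
  IsUp (N * p) k p U →
  ∃ (i i' : SN N k →ₗ[ℂ] SN (N * p) k) (W : SN (N * p) k →ₗ[ℂ] SN (N * p) k),
    (∀ f z, i f z = f z) ∧
    (∀ f (z : ℍ) (hp : 0 < p), i' f z = (p : ℂ) ^ (k - 1) * f (mulPt p hp z)) ∧
    (∀ f, U (i f) = i (T f) - i' f) ∧ (∀ f, U (i' f) = (p : ℂ) ^ (k - 1) • i f) ∧
    (∀ f, W (W f) = (p : ℂ) ^ (k - 2) • f) ∧ (∀ f, W (i f) = i' f) ∧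
    (∀ f, W (i' f) = (p : ℂ) ^ (k - 2) • i f) ∧
    (∀ f, ∃ g, f + (p : ℂ) ^ (2 - k) • U (W f) = i g) ∧
    (∀ f g, i f + i' g = 0 → f = 0 ∧ g = 0)

/-- F2. Linear algebra: the eigenvalues of `U`. -/
def FEig : Prop := ∀ (K : Type) [Field K] [IsAlgClosed K] (E E' : Type) [AddCommGroup E] [Module K E]
  [Module.Finite K E] [AddCommGroup E'] [Module K E'] [Module.Finite K E'] (c d : K)
  (T : E →ₗ[K] E) (U W : E' →ₗ[K] E') (i i' : E →ₗ[K] E'), c ≠ 0 → d ≠ 0 →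
  (∀ f, U (i f) = i (T f) - i' f) → (∀ f, U (i' f) = c • i f) → (∀ f, W (W f) = d • f) →
  (∀ f, W (i f) = i' f) → (∀ f, W (i' f) = d • i f) → (∀ f, ∃ g, f + d⁻¹ • U (W f) = i g) →
  (∀ f g, i f + i' g = 0 → f = 0 ∧ g = 0) →
  ∃ Q : Multiset K, U.charpoly.roots =
    (T.charpoly.roots.bind fun a => (Polynomial.X ^ 2 - Polynomial.C a * Polynomial.X
      + Polynomial.C c : K[X]).roots) + Q ∧ (∀ x ∈ Q, x ^ 2 = d) ∧
    Multiset.card Q + 2 * Module.finrank K E = Module.finrank K E'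

/-- F3. The index. -/
def FInd : Prop := ∀ (p N : ℕ) [Fact p.Prime], N ≠ 0 → ¬ p ∣ N →
  (Gamma0 (N * p)).index = (p + 1) * (Gamma0 N).index

/-- F4. Dimension asymptotics for all levels. -/
def FDim : Prop := ∀ N : ℕ, N ≠ 0 → EDim N

/-- F5. The frozen statement S16353 (exact copy). -/
def F16353 : Prop :=
    ∀ (p : ℕ) [Fact p.Prime] (N : ℕ), 0 < N → N.Coprime p →
    ∀ (T : ∀ k : ℕ, Module.End ℂ
        (CuspForm ((CongruenceSubgroup.Gamma0 (N * p) : Subgroup SL(2, ℤ)) :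
          Subgroup (GL (Fin 2) ℝ)) (k : ℤ)))
      (P : ℕ → Polynomial ℚ),
    (∀ (k : ℕ) (f : CuspForm ((CongruenceSubgroup.Gamma0 (N * p) : Subgroup SL(2, ℤ)) :
          Subgroup (GL (Fin 2) ℝ)) (k : ℤ)) (z : UpperHalfPlane),
        (T k f : UpperHalfPlane → ℂ) z =
          (1 / (p : ℂ)) * ∑ j ∈ Finset.range p,
            (f : UpperHalfPlane → ℂ) (UpperHalfPlane.ofComplex (((z : ℂ) + (j : ℂ)) / (p : ℂ)))) →
    (∀ k : ℕ, (P k).Monic ∧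
        (P k).natDegree = Module.finrank ℂ
          (CuspForm ((CongruenceSubgroup.Gamma0 (N * p) : Subgroup SL(2, ℤ)) :
            Subgroup (GL (Fin 2) ℝ)) (k : ℤ)) ∧
        ∀ μ : ℂ, ((P k).map (algebraMap ℚ ℂ)).rootMultiplicity μ =
          Module.finrank ℂ (Module.End.maxGenEigenspace (T k) μ)) →
    ∀ f : BoundedContinuousFunction ℝ ℝ,
      Filter.Tendsto
        (fun m : ℕ =>
          (((P (2 * m)).map (algebraMap ℚ (PadicAlgCl p))).roots.map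
              (fun x => f (-Real.logb (p : ℝ) ‖x‖ / ((2 * (m : ℝ)) - 1)))).sum /
            (Module.finrank ℂ
              (CuspForm ((CongruenceSubgroup.Gamma0 (N * p) : Subgroup SL(2, ℤ)) :
                Subgroup (GL (Fin 2) ℝ)) ((2 * m : ℕ) : ℤ)) : ℝ))
        Filter.atTop
        (nhds ((∫ x in (0 : ℝ)..(1 / ((p : ℝ) + 1)), f x) +
          (∫ x in ((p : ℝ) / ((p : ℝ) + 1))..(1 : ℝ), f x) +
          ((p : ℝ) - 1) / ((p : ℝ) + 1) * f (1 / 2)))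

/-- G1. The per-weight form: the average of `G(min(v(a_p),(k-1)/2)/(k-1))` over the eigenvalues. -/
def GPer (p N : ℕ) [Fact p.Prime] : Prop :=
  ∀ (ι : ℂ ≃+* PadicAlgCl p) (G : ℝ → ℝ), Continuous G →
    Tendsto (fun n : ℕ => (1 / (Multiset.card (heckeEigs N ((n : ℤ) + 2) p) : ℝ)) *
        ((heckeEigs N ((n : ℤ) + 2) p).map fun a =>
          G (ws p (avI ι) (((n : ℝ) + 1) / 2) a / ((n : ℝ) + 1))).sum)
      (atTop ⊓ 𝓟 {n : ℕ | Even n}) (nhds (((p : ℝ) + 1) * ∫ x in (0 : ℝ)..(1 / ((p : ℝ) + 1)), G x))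

open Classical in
/-- G2. The number of eigenvalues `a` of weight `k` with `(p+1)/k * v(a) ∈ [x, y]`
(`a = 0` has infinite slope). -/
def cntK (p : ℕ) [Fact p.Prime] (N k : ℕ) (ι : ℂ ≃+* PadicAlgCl p) (x y : ℝ) : ℕ :=
  Multiset.card ((heckeEigs N k p).filter fun a => a ≠ 0 ∧
    x ≤ ((p : ℝ) + 1) / k * vAlg p (ι a) ∧ ((p : ℝ) + 1) / k * vAlg p (ι a) ≤ y)

/-- G3. The conclusion for MP_88d29b_nt: equidistribution of
`X_T = {(p+1)/k * v_p(a_p) : 2 ≤ k ≤ T}` on `[0,1]`. -/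
def ConclusionG (p N : ℕ) [Fact p.Prime] : Prop :=
  ∀ (ι : ℂ ≃+* PadicAlgCl p) (x y : ℝ), 0 ≤ x → x ≤ y → y ≤ 1 →
    Tendsto (fun T : ℕ => ((∑ k ∈ Finset.Icc 2 T, cntK p N k ι x y : ℕ) : ℝ) /
        ((∑ k ∈ Finset.Icc 2 T, Multiset.card (heckeEigs N k p) : ℕ) : ℝ))
      atTop (nhds (y - x))

end Gou
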