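import Pool.Agent.Work.MP_602313_nt.F.FStmts

/-!
G: the cumulative form of the distribution of slopes.
-/

open scoped MatrixGroups ModularForm UpperHalfPlane Polynomial ENNReal
open CongruenceSubgroup UpperHalfPlane MeasureTheory Filter

noncomputable section

namespace Gou

namespace GConcAux

/-- A continuous cut-off: `1` for `s ≤ c - ε`, `0` for `c ≤ s`. -/
def cut (ε c s : ℝ) : ℝ := max 0 (min 1 ((c - s) / ε))

lemma cut_nonneg (ε c s : ℝ) : 0 ≤ cut ε c s := le_max_left _ _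

lemma cut_le_one (ε c s : ℝ) : cut ε c s ≤ 1 := max_le zero_le_one (min_le_left _ _)

lemma cut_eq_one {ε c s : ℝ} (hε : 0 < ε) (h : s ≤ c - ε) : cut ε c s = 1 := by
  unfold cut
  have : 1 ≤ (c - s) / ε := by rw [le_div_iff₀ hε]; linarith
  rw [min_eq_left this, max_eq_right zero_le_one]

lemma cut_eq_zero {ε c s : ℝ} (hε : 0 < ε) (h : c ≤ s) : cut ε c s = 0 := by
  unfold cut
  have : (c - s) / ε ≤ 0 := div_nonpos_of_nonpos_of_nonneg (by linarith) hε.le
  rw [max_eq_left]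
  exact (min_le_right _ _).trans this

lemma cut_mono {ε c c' : ℝ} (hε : 0 < ε) (h : c ≤ c') (s : ℝ) : cut ε c s ≤ cut ε c' s := by
  unfold cut
  apply max_le_max le_rfl
  apply min_le_min le_rfl
  apply div_le_div_of_nonneg_right _ hε.le
  linarith

lemma continuous_cut (ε c : ℝ) : Continuous (cut ε c) := by
  unfold cut
  fun_prop

lemma integral_cut_le {ε c : ℝ} (hε : 0 < ε) (hc : 0 ≤ c) : ∫ s in (0 : ℝ)..1, cut ε c s ≤ c := by
  have hint : ∀ a b : ℝ, IntervalIntegrable (cut ε c) volume a b := fun a b =>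
    (continuous_cut ε c).intervalIntegrable a b
  have h1 : ∫ s in (0 : ℝ)..(1 + c), cut ε c s =
      (∫ s in (0 : ℝ)..1, cut ε c s) + ∫ s in (1 : ℝ)..(1 + c), cut ε c s :=
    (intervalIntegral.integral_add_adjacent_intervals (hint _ _) (hint _ _)).symm
  have h2 : ∫ s in (0 : ℝ)..(1 + c), cut ε c s =
      (∫ s in (0 : ℝ)..c, cut ε c s) + ∫ s in c..(1 + c), cut ε c s :=
    (intervalIntegral.integral_add_adjacent_intervals (hint _ _) (hint _ _)).symm
  have h3 : 0 ≤ ∫ s in (1 : ℝ)..(1 + c), cut ε c s :=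
    intervalIntegral.integral_nonneg (by linarith) (fun s _ => cut_nonneg _ _ _)
  have h4 : ∫ s in c..(1 + c), cut ε c s = 0 := by
    rw [intervalIntegral.integral_congr (g := fun _ => (0 : ℝ))]
    · simp
    · intro s hs
      rw [Set.uIcc_of_le (by linarith)] at hs
      exact cut_eq_zero hε hs.1
  have h5 : ∫ s in (0 : ℝ)..c, cut ε c s ≤ ∫ _s in (0 : ℝ)..c, (1 : ℝ) :=
    intervalIntegral.integral_mono_on hc (hint _ _) (by simp) (fun s _ => cut_le_one _ _ _)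
  rw [intervalIntegral.integral_const, smul_eq_mul, mul_one, sub_zero] at h5
  linarith

lemma le_integral_cut {ε c : ℝ} (hε : 0 < ε) (hc : c - ε ≤ 1) :
    c - ε ≤ ∫ s in (0 : ℝ)..1, cut ε c s := by
  have hint : ∀ a b : ℝ, IntervalIntegrable (cut ε c) volume a b := fun a b =>
    (continuous_cut ε c).intervalIntegrable a b
  by_cases h : c - ε ≤ 0
  · exact h.trans (intervalIntegral.integral_nonneg zero_le_one (fun s _ => cut_nonneg _ _ _))
  · push Not at h
    have h2 : ∫ s in (0 : ℝ)..1, cut ε c s =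
        (∫ s in (0 : ℝ)..(c - ε), cut ε c s) + ∫ s in (c - ε)..1, cut ε c s :=
      (intervalIntegral.integral_add_adjacent_intervals (hint _ _) (hint _ _)).symm
    have h3 : 0 ≤ ∫ s in (c - ε)..1, cut ε c s :=
      intervalIntegral.integral_nonneg hc (fun s _ => cut_nonneg _ _ _)
    have h4 : ∫ s in (0 : ℝ)..(c - ε), cut ε c s = c - ε := by
      rw [intervalIntegral.integral_congr (g := fun _ => (1 : ℝ))]
      · simp
      · intro s hs
        rw [Set.uIcc_of_le h.le] at hs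
        exact cut_eq_one hε hs.2
    rw [h2, h4]
    linarith

lemma scaled_integral (p : ℕ) (φ : ℝ → ℝ) :
    ((p : ℝ) + 1) * ∫ x in (0 : ℝ)..(1 / ((p : ℝ) + 1)), φ (((p : ℝ) + 1) * x) =
      ∫ x in (0 : ℝ)..1, φ x := by
  have hp : ((p : ℝ) + 1) ≠ 0 := by positivity
  rw [intervalIntegral.integral_comp_mul_left _ hp, mul_zero, mul_one_div_cancel hp, smul_eq_mul,
    ← mul_assoc, mul_inv_cancel₀ hp, one_mul]

open Classical in
lemma msum_le (s : Multiset ℂ) (P : ℂ → Prop) (f g : ℂ → ℝ)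
    (h : ∀ a ∈ s, (if P a then 1 else 0) + f a ≤ g a) :
    (Multiset.card (s.filter P) : ℝ) + (s.map f).sum ≤ (s.map g).sum := by
  induction s using Multiset.induction_on with
  | empty => simp
  | cons a s ih =>
    have h1 := ih (fun b hb => h b (Multiset.mem_cons_of_mem hb))
    have h2 := h a (Multiset.mem_cons_self a s)
    rw [Multiset.map_cons, Multiset.map_cons, Multiset.sum_cons, Multiset.sum_cons]
    by_cases hP : P a
    · rw [Multiset.filter_cons_of_pos _ hP, Multiset.card_cons]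
      rw [if_pos hP] at h2
      push_cast
      linarith
    · rw [Multiset.filter_cons_of_neg _ hP]
      rw [if_neg hP] at h2
      linarith

open Classical in
lemma msum_ge (s : Multiset ℂ) (P : ℂ → Prop) (f g : ℂ → ℝ)
    (h : ∀ a ∈ s, g a ≤ (if P a then 1 else 0) + f a) :
    (s.map g).sum ≤ (Multiset.card (s.filter P) : ℝ) + (s.map f).sum := by
  induction s using Multiset.induction_on with
  | empty => simp
  | cons a s ih =>
    have h1 := ih (fun b hb => h b (Multiset.mem_cons_of_mem hb))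
    have h2 := h a (Multiset.mem_cons_self a s)
    rw [Multiset.map_cons, Multiset.map_cons, Multiset.sum_cons, Multiset.sum_cons]
    by_cases hP : P a
    · rw [Multiset.filter_cons_of_pos _ hP, Multiset.card_cons]
      rw [if_pos hP] at h2
      push_cast
      linarith
    · rw [Multiset.filter_cons_of_neg _ hP]
      rw [if_neg hP] at h2
      linarith

lemma ws_of_le {p : ℕ} [Fact p.Prime] (ι : ℂ ≃+* PadicAlgCl p) (s : ℝ) (a : ℂ) (ha : a ≠ 0)
    (h : vAlg p (ι a) ≤ s) : ws p (avI ι) s a = vAlg p (ι a) := by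
  have hp1 : (1 : ℝ) < p := by exact_mod_cast (Fact.out : p.Prime).one_lt
  have hpos : 0 < ‖ι a‖ := norm_pos_iff.2 (by simpa using ha)
  have h1 : (p : ℝ) ^ (-s) ≤ ‖ι a‖ := by
    unfold vAlg at h
    rw [← Real.le_logb_iff_rpow_le hp1 hpos]
    linarith
  unfold ws vAlg
  have h2 : avI ι a = ‖ι a‖ := rfl
  rw [h2, max_eq_left h1]

lemma ws_of_gt {p : ℕ} [Fact p.Prime] (ι : ℂ ≃+* PadicAlgCl p) (s : ℝ) (a : ℂ)
    (h : a ≠ 0 → s < vAlg p (ι a)) : ws p (avI ι) s a = s := by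
  have hp1 : (1 : ℝ) < p := by exact_mod_cast (Fact.out : p.Prime).one_lt
  have hp0 : (0 : ℝ) < p := by linarith
  have h2 : avI ι a = ‖ι a‖ := rfl
  have h1 : ‖ι a‖ ≤ (p : ℝ) ^ (-s) := by
    by_cases ha : a = 0
    · rw [ha, map_zero, norm_zero]
      positivity
    · have hpos : 0 < ‖ι a‖ := norm_pos_iff.2 (by simpa using ha)
      have h3 := h ha
      unfold vAlg at h3
      rw [← Real.logb_le_iff_le_rpow hp1 hpos]
      linarith
  unfold ws
  rw [h2, max_eq_right h1, Real.logb_rpow hp0 hp1.ne']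
  ring

/-- The predicate of `cntK`. -/
def Pr (p : ℕ) [Fact p.Prime] (ι : ℂ ≃+* PadicAlgCl p) (n : ℕ) (x y : ℝ) (a : ℂ) : Prop :=
  a ≠ 0 ∧ x ≤ ((p : ℝ) + 1) / ((n + 2 : ℕ) : ℝ) * vAlg p (ι a) ∧
    ((p : ℝ) + 1) / ((n + 2 : ℕ) : ℝ) * vAlg p (ι a) ≤ y

lemma big_one {p : ℕ} [Fact p.Prime] {n : ℕ} (hn : 2 ≤ n) :
    1 < ((p : ℝ) + 1) / ((n + 2 : ℕ) : ℝ) * (((n : ℝ) + 1) / 2) := by
  have hp2 : (2 : ℝ) ≤ p := by exact_mod_cast (Fact.out : p.Prime).two_le
  have hn2 : (2 : ℝ) ≤ n := by exact_mod_cast hn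
  have hk : (0 : ℝ) < ((n + 2 : ℕ) : ℝ) := by positivity
  rw [div_mul_div_comm, lt_div_iff₀ (by positivity)]
  push_cast
  nlinarith

lemma pr_true {p : ℕ} [Fact p.Prime] (ι : ℂ ≃+* PadicAlgCl p) {n : ℕ} (hn : 2 ≤ n) {a : ℂ}
    {x y : ℝ} (hy : y ≤ 1) (h : Pr p ι n x y a) :
    x ≤ ((p : ℝ) + 1) / ((n + 2 : ℕ) : ℝ) * ws p (avI ι) (((n : ℝ) + 1) / 2) a ∧
    ((p : ℝ) + 1) / ((n + 2 : ℕ) : ℝ) * ws p (avI ι) (((n : ℝ) + 1) / 2) a ≤ y := by
  obtain ⟨ha, h1, h2⟩ := h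
  have hc : (0 : ℝ) < ((p : ℝ) + 1) / ((n + 2 : ℕ) : ℝ) := by positivity
  have hv : vAlg p (ι a) ≤ ((n : ℝ) + 1) / 2 := by
    by_contra hcon
    push Not at hcon
    have h3 := mul_lt_mul_of_pos_left hcon hc
    have h4 := big_one (p := p) hn
    linarith
  rw [ws_of_le ι _ a ha hv]
  exact ⟨h1, h2⟩

lemma pr_false {p : ℕ} [Fact p.Prime] (ι : ℂ ≃+* PadicAlgCl p) {n : ℕ} (hn : 2 ≤ n) {a : ℂ}
    {x y : ℝ} (hy : y ≤ 1) (h : ¬ Pr p ι n x y a) :
    ((p : ℝ) + 1) / ((n + 2 : ℕ) : ℝ) * ws p (avI ι) (((n : ℝ) + 1) / 2) a < x ∨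
    y < ((p : ℝ) + 1) / ((n + 2 : ℕ) : ℝ) * ws p (avI ι) (((n : ℝ) + 1) / 2) a := by
  by_cases hv : a ≠ 0 ∧ vAlg p (ι a) ≤ ((n : ℝ) + 1) / 2
  · rw [ws_of_le ι _ a hv.1 hv.2]
    by_contra hcon
    push Not at hcon
    exact h ⟨hv.1, hcon.1, hcon.2⟩
  · right
    rw [ws_of_gt ι _ a (fun ha => by
      by_contra hcon
      push Not at hcon
      exact hv ⟨ha, hcon⟩)]
    exact lt_of_le_of_lt hy (big_one hn)

/-- The comparison of the two normalisations. -/
lemma norm_close {p : ℕ} {n : ℕ} {w ε : ℝ} (hw0 : 0 ≤ w) (hw : w ≤ ((n : ℝ) + 1) / 2)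
    (hε : ((p : ℝ) + 1) / ((n : ℝ) + 2) ≤ ε) :
    ((p : ℝ) + 1) / ((n + 2 : ℕ) : ℝ) * w ≤ ((p : ℝ) + 1) * (w / ((n : ℝ) + 1)) ∧
    ((p : ℝ) + 1) * (w / ((n : ℝ) + 1)) ≤ ((p : ℝ) + 1) / ((n + 2 : ℕ) : ℝ) * w + ε := by
  have h1 : (0 : ℝ) < (n : ℝ) + 1 := by positivity
  have h2 : (0 : ℝ) < (n : ℝ) + 2 := by positivity
  have h3 : (0 : ℝ) < (p : ℝ) + 1 := by positivity
  have e : ((p : ℝ) + 1) * (w / ((n : ℝ) + 1)) = ((p : ℝ) + 1) / ((n : ℝ) + 2) * w
      + ((p : ℝ) + 1) / ((n : ℝ) + 2) * (w / ((n : ℝ) + 1)) := by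
    field_simp
    ring
  have h4 : 0 ≤ ((p : ℝ) + 1) / ((n : ℝ) + 2) * (w / ((n : ℝ) + 1)) := by positivity
  have h5 : w / ((n : ℝ) + 1) ≤ 1 := by
    rw [div_le_one h1]; linarith
  have h6 : ((p : ℝ) + 1) / ((n : ℝ) + 2) * (w / ((n : ℝ) + 1)) ≤ ((p : ℝ) + 1) / ((n : ℝ) + 2) * 1 :=
    mul_le_mul_of_nonneg_left h5 (by positivity)
  push_cast
  constructor <;> linarith

/-- The average of a cut-off function. -/
def av1 (p N : ℕ) [Fact p.Prime] (ι : ℂ ≃+* PadicAlgCl p) (ε c : ℝ) (n : ℕ) : ℝ :=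
  ((heckeEigs N ((n : ℤ) + 2) p).map fun a =>
    cut ε c (((p : ℝ) + 1) * (ws p (avI ι) (((n : ℝ) + 1) / 2) a / ((n : ℝ) + 1)))).sum

lemma tendsto_av1 {p N : ℕ} [Fact p.Prime] (h1 : GPer p N) (ι : ℂ ≃+* PadicAlgCl p) (ε c : ℝ) :
    Tendsto (fun n : ℕ => (1 / (Multiset.card (heckeEigs N ((n : ℤ) + 2) p) : ℝ)) *
      av1 p N ι ε c n) (atTop ⊓ 𝓟 {n : ℕ | Even n}) (nhds (∫ x in (0 : ℝ)..1, cut ε c x)) := by
  have h2 := h1 ι (fun t => cut ε c (((p : ℝ) + 1) * t)) (by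
    have := continuous_cut ε c
    fun_prop)
  rw [scaled_integral p (cut ε c)] at h2
  exact h2

lemma card_odd {p N : ℕ} (h4 : EOdd N) (k : ℕ) (hk : ¬ Even k) :
    Multiset.card (heckeEigs N k p) = 0 := by
  unfold heckeEigs
  split_ifs with h
  · have h5 : ((heckeOp N k p).charpoly.roots).card ≤ 0 := by
      refine (Polynomial.card_roots' _).trans ?_
      rw [LinearMap.charpoly_natDegree, h4 k hk]
    exact Nat.le_zero.1 h5
  · rfl

open Classical in
lemma cntK_eq (p N : ℕ) [Fact p.Prime] (ι : ℂ ≃+* PadicAlgCl p) (n : ℕ) (x y : ℝ) :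
    cntK p N (n + 2) ι x y =
      Multiset.card ((heckeEigs N ((n : ℤ) + 2) p).filter (Pr p ι n x y)) := by
  unfold cntK
  have e : (((n + 2 : ℕ) : ℤ)) = (n : ℤ) + 2 := by push_cast; ring
  rw [e]
  congr 1
  apply Multiset.filter_congr
  intro a _
  rfl

lemma main_est {p N : ℕ} [Fact p.Prime] (h1 : GPer p N) (h3 : EInt p N)
    (ι : ℂ ≃+* PadicAlgCl p) {x y : ℝ} (hx : 0 ≤ x) (hxy : x ≤ y) (hy : y ≤ 1) {ε : ℝ}
    (hε : 0 < ε) :
    ∀ᶠ n in atTop ⊓ 𝓟 {n : ℕ | Even n},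
      |(cntK p N (n + 2) ι x y : ℝ) - (y - x) * (Multiset.card (heckeEigs N ((n : ℤ) + 2) p) : ℝ)|
        ≤ ε * (Multiset.card (heckeEigs N ((n : ℤ) + 2) p) : ℝ) := by
  classical
  obtain ⟨k0, h3⟩ := h3
  set e : ℝ := ε / 8 with he
  have he0 : 0 < e := by positivity
  have A1 := (tendsto_av1 h1 ι e (y + 2 * e)).eventually_lt_const
    (lt_of_le_of_lt (integral_cut_le he0 (by linarith)) (show y + 2 * e < y + 3 * e by linarith))
  have A2 := (tendsto_av1 h1 ι e (x - e)).eventually_const_lt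
    (lt_of_lt_of_le (show x - 3 * e < x - e - e by linarith) (le_integral_cut he0 (by linarith)))
  have A3 := (tendsto_av1 h1 ι e (x + 2 * e)).eventually_lt_const
    (lt_of_le_of_lt (integral_cut_le he0 (by linarith)) (show x + 2 * e < x + 3 * e by linarith))
  have A4 := (tendsto_av1 h1 ι e (y - e)).eventually_const_lt
    (lt_of_lt_of_le (show y - 3 * e < y - e - e by linarith) (le_integral_cut he0 (by linarith)))
  have A5 : ∀ᶠ n : ℕ in atTop, 2 ≤ n ∧ k0 ≤ n + 2 ∧ ((p : ℝ) + 1) / ((n : ℝ) + 2) ≤ e := by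
    have B1 : ∀ᶠ n : ℕ in atTop, 2 ≤ n := eventually_ge_atTop 2
    have B2 : ∀ᶠ n : ℕ in atTop, k0 ≤ n := eventually_ge_atTop k0
    have B3 : ∀ᶠ n : ℕ in atTop, ⌈((p : ℝ) + 1) / e⌉₊ ≤ n := eventually_ge_atTop _
    filter_upwards [B1, B2, B3] with n b1 b2 b3
    refine ⟨b1, by omega, ?_⟩
    have b4 : ((p : ℝ) + 1) / e ≤ n := (Nat.le_ceil _).trans (by exact_mod_cast b3)
    rw [div_le_iff₀ he0] at b4
    rw [div_le_iff₀ (by positivity)]
    nlinarith
  have A5' := A5.filter_mono (inf_le_left : atTop ⊓ 𝓟 {n : ℕ | Even n} ≤ atTop)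
  have A6 : ∀ᶠ n in atTop ⊓ 𝓟 {n : ℕ | Even n}, Even n :=
    mem_inf_of_right (mem_principal_self _)
  filter_upwards [A1, A2, A3, A4, A5', A6] with n a1 a2 a3 a4 a5 a6
  obtain ⟨hn2, hnk, hne⟩ := a5
  have hE := h3 (n + 2) hnk (a6.add even_two) ι (fun _ => (0 : ℝ)) continuous_const
  have hw : ∀ a ∈ heckeEigs N ((n : ℤ) + 2) p, 0 ≤ ws p (avI ι) (((n : ℝ) + 1) / 2) a ∧
      ws p (avI ι) (((n : ℝ) + 1) / 2) a ≤ ((n : ℝ) + 1) / 2 := by
    intro a ha
    have e1 : (((n + 2 : ℕ) : ℤ)) = (n : ℤ) + 2 := by push_cast; ring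
    have e2 : ((((n + 2 : ℕ) : ℝ)) - 1) / 2 = ((n : ℝ) + 1) / 2 := by push_cast; ring
    have h5 := hE.2.1 a (by rw [e1]; exact ha)
    rw [e2] at h5
    exact ⟨h5.1, h5.2.1⟩
  rw [cntK_eq]
  set S := heckeEigs N ((n : ℤ) + 2) p with hS
  have c1 := msum_le S (Pr p ι n x y)
    (fun a => cut e (x - e) (((p : ℝ) + 1) * (ws p (avI ι) (((n : ℝ) + 1) / 2) a / ((n : ℝ) + 1))))
    (fun a => cut e (y + 2 * e) (((p : ℝ) + 1) *
      (ws p (avI ι) (((n : ℝ) + 1) / 2) a / ((n : ℝ) + 1)))) (by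
      intro a ha
      obtain ⟨hw0, hw1⟩ := hw a ha
      obtain ⟨d1, d2⟩ := norm_close (p := p) hw0 hw1 hne
      by_cases hP : Pr p ι n x y a
      · rw [if_pos hP]
        obtain ⟨q1, q2⟩ := pr_true ι hn2 hy hP
        rw [cut_eq_zero he0 (by linarith), cut_eq_one he0 (by linarith)]
        norm_num
      · rw [if_neg hP, zero_add]
        exact cut_mono he0 (by linarith) _)
  have c2 := msum_ge S (Pr p ι n x y)
    (fun a => cut e (x + 2 * e) (((p : ℝ) + 1) *
      (ws p (avI ι) (((n : ℝ) + 1) / 2) a / ((n : ℝ) + 1))))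
    (fun a => cut e (y - e) (((p : ℝ) + 1) *
      (ws p (avI ι) (((n : ℝ) + 1) / 2) a / ((n : ℝ) + 1)))) (by
      intro a ha
      obtain ⟨hw0, hw1⟩ := hw a ha
      obtain ⟨d1, d2⟩ := norm_close (p := p) hw0 hw1 hne
      by_cases hP : Pr p ι n x y a
      · rw [if_pos hP]
        have := cut_le_one e (y - e) (((p : ℝ) + 1) *
          (ws p (avI ι) (((n : ℝ) + 1) / 2) a / ((n : ℝ) + 1)))
        have := cut_nonneg e (x + 2 * e) (((p : ℝ) + 1) *
          (ws p (avI ι) (((n : ℝ) + 1) / 2) a / ((n : ℝ) + 1)))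
        linarith
      · rw [if_neg hP, zero_add]
        rcases pr_false ι hn2 hy hP with q | q
        · rw [cut_eq_one (c := x + 2 * e) he0 (by linarith)]
          exact cut_le_one _ _ _
        · rw [cut_eq_zero (c := y - e) he0 (by linarith)]
          exact cut_nonneg _ _ _)
  have f1 : av1 p N ι e (x - e) n = (S.map fun a => cut e (x - e) (((p : ℝ) + 1) *
    (ws p (avI ι) (((n : ℝ) + 1) / 2) a / ((n : ℝ) + 1)))).sum := rfl
  have f2 : av1 p N ι e (y + 2 * e) n = (S.map fun a => cut e (y + 2 * e) (((p : ℝ) + 1) *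
    (ws p (avI ι) (((n : ℝ) + 1) / 2) a / ((n : ℝ) + 1)))).sum := rfl
  have f3 : av1 p N ι e (x + 2 * e) n = (S.map fun a => cut e (x + 2 * e) (((p : ℝ) + 1) *
    (ws p (avI ι) (((n : ℝ) + 1) / 2) a / ((n : ℝ) + 1)))).sum := rfl
  have f4 : av1 p N ι e (y - e) n = (S.map fun a => cut e (y - e) (((p : ℝ) + 1) *
    (ws p (avI ι) (((n : ℝ) + 1) / 2) a / ((n : ℝ) + 1)))).sum := rfl
  rw [← f1, ← f2] at c1
  rw [← f3, ← f4] at c2
  rcases Nat.eq_zero_or_pos (Multiset.card S) with h0 | h0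
  · have hS0 : S = 0 := Multiset.card_eq_zero.1 h0
    rw [hS0]
    simp
  · have hD : (0 : ℝ) < (Multiset.card S : ℝ) := by exact_mod_cast h0
    set D : ℝ := (Multiset.card S : ℝ) with hDdef
    have g : ∀ A c : ℝ, 1 / D * A < c → A < c * D := by
      intro A c h
      rw [one_div, inv_mul_lt_iff₀ hD] at h
      linarith
    have g' : ∀ A c : ℝ, c < 1 / D * A → c * D < A := by
      intro A c h
      rw [one_div, lt_inv_mul_iff₀ hD] at h
      linarith
    have a1' := g _ _ a1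
    have a2' := g' _ _ a2
    have a3' := g _ _ a3
    have a4' := g' _ _ a4
    rw [abs_le]
    have he8 : ε = 8 * e := by rw [he]; ring
    rw [he8]
    constructor <;> nlinarith

lemma sum_shift (f : ℕ → ℕ) (T : ℕ) :
    ∑ k ∈ Finset.Icc 2 T, f k = ∑ i ∈ Finset.range (T - 1), f (i + 2) := by
  have h : Finset.Icc 2 T = (Finset.range (T - 1)).image (fun i => i + 2) := by
    ext k
    rw [Finset.mem_Icc, Finset.mem_image]
    constructor
    · rintro ⟨h1, h2⟩
      exact ⟨k - 2, by rw [Finset.mem_range]; omega, by omega⟩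
    · rintro ⟨i, hi, rfl⟩
      rw [Finset.mem_range] at hi
      omega
  rw [h, Finset.sum_image (fun i _ j _ hij => by simpa using hij)]

end GConcAux

open GConcAux in
theorem gConc {p N : ℕ} [Fact p.Prime] (h1 : GPer p N) (h2 : EDim N) (h3 : EInt p N)
    (h4 : EOdd N) (hN : N ≠ 0) : ConclusionG p N := by
  classical
  intro ι x y hx hxy hy
  set A : ℕ → ℝ := fun n => (cntK p N (n + 2) ι x y : ℝ) with hA
  set D : ℕ → ℝ := fun n => (Multiset.card (heckeEigs N ((n : ℤ) + 2) p) : ℝ) with hD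
  have hD0 : ∀ n, 0 ≤ D n := fun n => Nat.cast_nonneg _
  have hcast : ∀ n : ℕ, (((n + 2 : ℕ) : ℤ)) = (n : ℤ) + 2 := fun n => by push_cast; ring
  have hlo : (fun n => A n - (y - x) * D n) =o[atTop] D := by
    rw [Asymptotics.isLittleO_iff]
    intro c hc
    have hm := main_est h1 h3 ι hx hxy hy hc
    rw [eventually_inf_principal] at hm
    filter_upwards [hm] with n hn
    by_cases hev : Even n
    · rw [Real.norm_eq_abs, Real.norm_eq_abs, abs_of_nonneg (hD0 n)]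
      exact hn hev
    · have h5 : Multiset.card (heckeEigs N ((n : ℤ) + 2) p) = 0 := by
        rw [← hcast n]
        apply card_odd h4
        intro h
        exact hev ((Nat.even_add.1 h).2 even_two)
      have h6 : cntK p N (n + 2) ι x y = 0 := by
        rw [cntK_eq, Multiset.card_eq_zero.1 h5]
        simp
      simp only [hA, hD, h5, h6]
      simp
  have hdiv : Tendsto (fun n => ∑ i ∈ Finset.range n, D i) atTop atTop := by
    obtain ⟨C, h2⟩ := h2
    obtain ⟨k0, h3⟩ := h3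
    have hone : ∀ n : ℕ, Even n → k0 + C ≤ n → 1 ≤ D n := by
      intro n hev hn
      have hE := (h3 (n + 2) (by omega) (hev.add even_two) ι (fun _ => (0 : ℝ))
        continuous_const).1
      have hd := (h2 (n + 2) (hev.add even_two)).1
      have : NeZero N := ⟨hN⟩
      have hidx : (Gamma0 N).index ≠ 0 := Subgroup.FiniteIndex.index_ne_zero
      have hidx1 : 1 ≤ (Gamma0 N).index := Nat.one_le_iff_ne_zero.2 hidx
      rw [← hE] at hd
      have h5 : 1 * (n + 2) ≤ (Gamma0 N).index * (n + 2) := Nat.mul_le_mul_right _ hidx1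
      have h6 : 1 ≤ Multiset.card (heckeEigs N (((n + 2 : ℕ) : ℤ)) p) := by omega
      rw [hcast n] at h6
      exact Nat.one_le_cast.2 h6
    have hmono : Monotone (fun n => ∑ i ∈ Finset.range n, D i) := by
      intro m n hmn
      exact Finset.sum_le_sum_of_subset_of_nonneg (Finset.range_mono hmn) (fun i _ _ => hD0 i)
    have hgrow : ∀ b : ℕ, (b : ℝ) ≤ ∑ i ∈ Finset.range (2 * (k0 + C) + 2 * b), D i := by
      intro b
      induction b with
      | zero => simpa using Finset.sum_nonneg (fun i _ => hD0 i)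
      | succ b ih =>
        have e1 : 2 * (k0 + C) + 2 * (b + 1) = 2 * (k0 + C) + 2 * b + 1 + 1 := by ring
        rw [e1, Finset.sum_range_succ, Finset.sum_range_succ]
        have h7 := hone (2 * (k0 + C) + 2 * b) ⟨k0 + C + b, by ring⟩ (by omega)
        have h8 := hD0 (2 * (k0 + C) + 2 * b + 1)
        push_cast
        linarith
    apply tendsto_atTop_atTop_of_monotone hmono
    intro b
    exact ⟨_, (Nat.le_ceil b).trans (hgrow ⌈b⌉₊)⟩
  have hsum := hlo.sum_range (fun n => hD0 n) hdiv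
  have hratio : Tendsto (fun n => (∑ i ∈ Finset.range n, A i) / (∑ i ∈ Finset.range n, D i)) atTop
      (nhds (y - x)) := by
    have h5 := hsum.tendsto_div_nhds_zero
    have h6 : Tendsto (fun n => (∑ i ∈ Finset.range n, (A i - (y - x) * D i)) /
        (∑ i ∈ Finset.range n, D i) + (y - x)) atTop (nhds (0 + (y - x))) :=
      h5.add tendsto_const_nhds
    rw [zero_add] at h6
    refine h6.congr' ?_
    filter_upwards [hdiv.eventually_gt_atTop 0] with n hn
    rw [Finset.sum_sub_distrib, ← Finset.mul_sum]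
    field_simp
    ring
  have hT : Tendsto (fun T : ℕ => T - 1) atTop atTop := tendsto_sub_atTop_nat 1
  have hfin := hratio.comp hT
  refine hfin.congr ?_
  intro T
  simp only [Function.comp_apply, hA, hD]
  rw [sum_shift, sum_shift]
  push_cast
  rfl

end Gou
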