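import Pool.Agent.Work.MP_602313_nt.F.FStmts

/-! GPer: the per-weight form (helper90). -/

open scoped MatrixGroups ModularForm UpperHalfPlane Polynomial ENNReal
open CongruenceSubgroup UpperHalfPlane MeasureTheory Filter

noncomputable section

namespace Gou

theorem gPer {p N : ℕ} [hpf : Fact p.Prime] (h1 : EUp p N) (h2 : ELow p N) (h3 : EDim N)
    (h4 : EInt p N) (h5 : EAna) (hN : N ≠ 0) : GPer p N := by
  classical
  intro ι G hG
  have hp2 : 2 ≤ p := hpf.out.two_le
  have hp2' : (2 : ℝ) ≤ p := by exact_mod_cast hp2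
  obtain ⟨k0, hk0⟩ := h4
  obtain ⟨C0, hC0⟩ := h3
  have : NeZero N := ⟨hN⟩
  have hidx : 0 < (Gamma0 N).index := Nat.pos_of_ne_zero Subgroup.FiniteIndex.index_ne_zero
  set ψ : ℝ := ((Gamma0 N).index : ℝ) with hψ
  have hψ0 : 0 < ψ := by
    rw [hψ]
    exact_mod_cast hidx
  have key : ∀ n : ℕ, Even n → k0 ≤ n + 2 →
      Multiset.card (heckeEigs N ((n : ℤ) + 2) p) = Module.finrank ℂ (SN N ((n : ℤ) + 2)) ∧
      (∀ a ∈ heckeEigs N ((n : ℤ) + 2) p, 0 ≤ ws p (avI ι) (((n : ℝ) + 1) / 2) a ∧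
        ws p (avI ι) (((n : ℝ) + 1) / 2) a ≤ ((n : ℝ) + 1) / 2 ∧
        ∀ s : ℝ, 0 ≤ s → s ≤ ((n : ℝ) + 1) / 2 →
          ws p (avI ι) s a = min (ws p (avI ι) (((n : ℝ) + 1) / 2) a) s) := by
    intro n hn hk
    have h := hk0 (n + 2) hk (hn.add even_two) ι G hG
    have e1 : (((n + 2 : ℕ) : ℝ) - 1) = (n : ℝ) + 1 := by push_cast; ring
    have e2 : (((n + 2 : ℕ) : ℤ)) = (n : ℤ) + 2 := by push_cast; ring
    rw [e1, e2] at h
    exact ⟨h.1, h.2.1⟩
  let A : ℕ → Multiset ℝ := fun n => if Even n ∧ k0 ≤ n + 2 then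
    (heckeEigs N ((n : ℤ) + 2) p).map (fun a => ws p (avI ι) (((n : ℝ) + 1) / 2) a) else 0
  have hA1 : ∀ n, Even n → k0 ≤ n + 2 → A n =
      (heckeEigs N ((n : ℤ) + 2) p).map (fun a => ws p (avI ι) (((n : ℝ) + 1) / 2) a) := by
    intro n hn hk
    exact if_pos ⟨hn, hk⟩
  have hlim := h5 p ψ (C0 + 2 * ψ + ψ * k0) A G hp2 hψ0 hG ?_ ?_ ?_
  rotate_left
  · -- bounds
    intro n t ht
    by_cases hc : Even n ∧ k0 ≤ n + 2
    · rw [hA1 n hc.1 hc.2] at ht
      obtain ⟨a, ha, rfl⟩ := Multiset.mem_map.mp ht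
      have h := (key n hc.1 hc.2).2 a ha
      exact ⟨h.1, h.2.1⟩
    · have : A n = 0 := if_neg hc
      rw [this] at ht
      simp at ht
  · -- cardinality
    intro n hn
    by_cases hk : k0 ≤ n + 2
    · rw [hA1 n hn hk, Multiset.card_map, (key n hn hk).1]
      have h := hC0 (n + 2) (hn.add even_two)
      have e2 : (((n + 2 : ℕ) : ℤ)) = (n : ℤ) + 2 := by push_cast; ring
      rw [e2] at h
      have ha : ψ * ((n : ℝ) + 2) ≤ 12 * (Module.finrank ℂ (SN N ((n : ℤ) + 2)) : ℝ) + C0 := by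
        rw [hψ]
        exact_mod_cast h.1
      have hb : 12 * (Module.finrank ℂ (SN N ((n : ℤ) + 2)) : ℝ) ≤ ψ * ((n : ℝ) + 2) + C0 := by
        rw [hψ]
        exact_mod_cast h.2
      have hk0' : 0 ≤ ψ * (k0 : ℝ) := by positivity
      rw [abs_le]
      constructor <;> linarith
    · have : A n = 0 := if_neg fun h => hk h.2
      rw [this]
      push Not at hk
      have hnk : (n : ℝ) ≤ k0 := by
        have : n ≤ k0 := by omega
        exact_mod_cast this
      have hC0' : (0 : ℝ) ≤ C0 := Nat.cast_nonneg _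
      have h1' : ψ * n ≤ ψ * k0 := mul_le_mul_of_nonneg_left hnk hψ0.le
      have h2' : 0 ≤ ψ * (n : ℝ) := by positivity
      simp only [Multiset.card_zero, Nat.cast_zero, mul_zero, zero_sub, abs_neg]
      rw [abs_of_nonneg h2']
      linarith
  · -- asymptotics
    intro ε hε
    obtain ⟨n1, hn1⟩ := h1 ε hε
    obtain ⟨n2, hn2⟩ := h2 ε hε
    refine ⟨max (max n1 n2) k0, fun n hn hne s hs => ?_⟩
    have hk : k0 ≤ n + 2 := by
      have := le_trans (le_max_right _ _) hn
      omega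
    have ha := hn1 n (le_trans (le_trans (le_max_left _ _) (le_max_left _ _)) hn) hne s hs ι
    have hb := hn2 n (le_trans (le_trans (le_max_right _ _) (le_max_left _ _)) hn) hne s hs ι
    have hs' : (s : ℝ) ≤ ((n : ℝ) + 1) / 2 := by
      have h0 : (0 : ℝ) ≤ s := Nat.cast_nonneg _
      have h0' : (0 : ℝ) ≤ n := Nat.cast_nonneg _
      have h3' : 3 * (s : ℝ) ≤ ((p : ℝ) + 1) * s := by nlinarith
      have h4' : (1 - ε) * (n : ℝ) ≤ n := by nlinarith
      linarith
    have hsum : ((A n).map fun t => min t (s : ℝ)).sum =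
        ((heckeEigs N ((n : ℤ) + 2) p).map fun a => ws p (avI ι) s a).sum := by
      rw [hA1 n hne hk, Multiset.map_map]
      congr 1
      refine Multiset.map_congr rfl fun a ha => ?_
      simp only [Function.comp_apply]
      exact (((key n hne hk).2 a ha).2.2 s (Nat.cast_nonneg _) hs').symm
    rw [hsum, abs_le]
    constructor <;> linarith
  -- conclusion
  refine hlim.congr' ?_
  have hmem : ∀ᶠ n : ℕ in atTop ⊓ 𝓟 {n : ℕ | Even n}, k0 ≤ n ∧ Even n := by
    refine Filter.Eventually.and ?_ ?_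
    · exact (eventually_ge_atTop k0).filter_mono inf_le_left
    · have h : ∀ᶠ n : ℕ in 𝓟 {n : ℕ | Even n}, Even n := by
        rw [eventually_principal]
        intro k hk
        exact hk
      exact h.filter_mono inf_le_right
  filter_upwards [hmem] with n hn
  rw [hA1 n hn.2 (by omega), Multiset.card_map, Multiset.map_map]
  simp only [Function.comp_def]

end Gou
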